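import Pool.Agent.Q137.UO.Codim

/-!
# Homologically trivial cycles modulo smash-nilpotent ones, one codimension at a time

For a smooth projective scheme `Y` over `ℂ` let `G^n(Y) = A^n_hom(Y) / A^n_⊗(Y)` be the group of the
homologically trivial cycle classes of codimension `n` modulo smash-nilpotent ones (rational
coefficients). Both are given by adequate equivalence relations, and smash-nilpotent classes are
homologically trivial, so `G^n` is an additive functor of the Chow motive of `Y`.

For a separated scheme `X` of finite type over `ℂ` let `W(X)` be the weight complex (Gillet, Soulé; a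
complex of Chow motives over `ℂ` with rational coefficients, for the cohomology with compact supports;
`W(X) = h(X)` for smooth projective `X`), and put `G^{n,i}(X) = H^i(G^n(W(X)))`. For smooth projective `Y`
the groups for `i ≠ 0` are zero and `G^{n,0}(Y) = G^n(Y)`.

**Theorem.** (1) For every `n`, all homologically trivial cycle classes of codimension `n` on all smooth
projective varieties over `ℂ` are smash-nilpotent if and only if `G^{n+a-1,i}(X) = 0` for all `i`, all `a`,
and the smooth affine cubic hypersurfaces `X : T(x, y, z) = 1` of all trilinear forms `T` over `ℂ` in `a`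
variables `x` (and any numbers of variables `y` and `z`). The first open case is `n = 2`, which is about
the index `a + 1`.

(2) The groups `G^{m,i}(X)` are zero for `m ≤ a` and these hypersurfaces.
-/

set_option autoImplicit false

open CategoryTheory CategoryTheory.Limits AlgebraicGeometry Pool.Agent.Y116.UV Pool.Agent.Z125.UN
  Pool.Agent.Q193.LT Pool.Agent.Q49.WU Pool.Agent.Q137.UO

universe w w'

namespace Pool.Agent.Results.MP_bf8edd_ag.CodimensionByCodimension

/-- The Chow groups with rational coefficients, the cycle class maps and the exterior powers of cycle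
classes. -/
structure ChowData where
  /-- the Chow groups `A^r(X)` with rational coefficients -/
  A : ℕ → Sch ℂ → ModuleCat.{w'} ℚ
  /-- the cohomology groups `H^{2r}(X, ℚ)` -/
  H : ℕ → Sch ℂ → ModuleCat.{w'} ℚ
  /-- the cycle class maps -/
  cl : ∀ (r : ℕ) (X : Sch ℂ), A r X ⟶ H r X
  /-- the groups `A^{mr}(X^m)` -/
  P : ℕ → ℕ → Sch ℂ → ModuleCat.{w'} ℚ
  /-- the exterior powers `a^{× m} ∈ A^{mr}(X^m)` -/
  power : ∀ (m : ℕ) {r : ℕ} {X : Sch ℂ}, A r X → P m r X

/-- All homologically trivial cycle classes of codimension `r` on `X` are smash-nilpotent. -/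
def VoevodskyAt (D : ChowData.{w'}) (r : ℕ) (X : Sch ℂ) : Prop :=
  ∀ a : D.A r X, (D.cl r X).hom a = 0 → ∃ m : ℕ, 1 ≤ m ∧ D.power m a = 0

/-- The groups `G^{n,i}(X)` are zero for all `i`. -/
def VanishAt (G : ℤ × ℤ → Sch ℂ → ModuleCat.{w} ℚ) (n : ℤ) (X : Sch ℂ) : Prop :=
  ∀ i : ℤ, Subsingleton (G (n, i) X)

/-- The groups `G^{n,i}(X)` with the maps to zero. -/
noncomputable def toZero (G : ℤ × ℤ → Sch ℂ → ModuleCat.{w} ℚ) : PairData.{w} ℂ (ℤ × ℤ) ℚ where
  A := G
  B := fun _ _ => ModuleCat.of ℚ PUnit
  ρ := fun _ _ => 0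

lemma bij_toZero (G : ℤ × ℤ → Sch ℂ → ModuleCat.{w} ℚ) (n : ℤ) (X : Sch ℂ) :
    BijAt (toZero G) Prod.fst n X ↔ VanishAt G n X := by
  constructor
  · intro h i
    exact ⟨fun a b => (h (n, i) rfl).1 rfl⟩
  · rintro h ⟨m, i⟩ rfl
    have := h i
    exact ⟨fun a b _ => Subsingleton.elim (α := G (m, i) X) a b, fun b => ⟨0, rfl⟩⟩

/-- What is used: `G^{n,0}(Y) = A^n_hom(Y) / A^n_⊗(Y)` and `G^{n,i}(Y) = 0` for `i ≠ 0` and smooth
projective `Y`, and the known standard properties of weight complexes. -/
structure Describes (D : ChowData.{w'}) (G : ℤ × ℤ → Sch ℂ → ModuleCat.{w} ℚ) : Prop where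
  classes : ∀ (n : ℕ) (Y : Sch ℂ), SmoothProj Y → (VoevodskyAt D n Y ↔ VanishAt G n Y)
  weight : IsWeightPair (toZero G)
  generated : GenAt (toZero G) Prod.fst
  point : ∀ n : ℤ, VanishAt G n (aff ℂ ℂ)

/-- **Homologically trivial cycles modulo smash-nilpotent ones, one codimension at a time.** See the
explanations above. Known cases that are used: the indices `N ≤ 1`, as homologically trivial divisor
classes are algebraically equivalent to zero, so that they are smash-nilpotent (Voevodsky, Voisin). -/
theorem result {D : ChowData.{w'}} {G : ℤ × ℤ → Sch ℂ → ModuleCat.{w} ℚ} (h : Describes D G)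
    (divisors : ∀ N : ℤ, N ≤ 1 → ∀ Y : Sch ℂ, SmoothProj Y → VanishAt G N Y) :
    (∀ n : ℕ, (∀ Y : Sch ℂ, SmoothProj Y → VoevodskyAt D n Y) ↔
      ∀ (a b c : ℕ) (T : Fin a → Fin b → Fin c → ℂ), VanishAt G (n + (a - 1)) (hypS T)) ∧
    ∀ (a b c : ℕ) (T : Fin a → Fin b → Fin c → ℂ) (m : ℤ), m ≤ a → VanishAt G m (hypS T) := by
  have hp : BijAll (toZero G) (aff ℂ ℂ) := fun j =>
    (bij_toZero G j.1 _).mpr (h.point j.1) j rfl
  refine ⟨fun n => ?_, fun a b c T m hm => (bij_toZero G m _).mp (low_forms h.generated h.weight hp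
    (fun N hN Y hY => (bij_toZero G N Y).mpr (divisors N hN Y hY)) T (by linarith))⟩
  have h1 := codim_forms h.generated h.weight hp n
  constructor
  · intro g a b c T
    exact (bij_toZero G _ _).mp (h1.mp (fun Y hY => (bij_toZero G _ _).mpr
      ((h.classes n Y hY).mp (g Y hY))) a b c T)
  · intro g Y hY
    exact (h.classes n Y hY).mpr ((bij_toZero G _ _).mp (h1.mpr (fun a b c T =>
      (bij_toZero G _ _).mpr (g a b c T)) Y hY))

end Pool.Agent.Results.MP_bf8edd_ag.CodimensionByCodimension
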