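import Pool.Agent.Q193.LT.Cyc

/-!
# Homologically trivial cycles modulo smash-nilpotent ones, and cubic hypersurfaces

For a smooth projective scheme `Y` over `ℂ` let `G^n(Y) = A^n_hom(Y) / A^n_⊗(Y)` be the group of the
homologically trivial cycle classes of codimension `n` modulo smash-nilpotent ones (rational
coefficients). Both are given by adequate equivalence relations, and smash-nilpotent classes are
homologically trivial, so `G^n` is an additive functor of the Chow motive of `Y`.

For a separated scheme `X` of finite type over `ℂ` let `W(X)` be the weight complex (Gillet, Soulé; a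
complex of Chow motives over `ℂ` with rational coefficients, for the cohomology with compact supports;
`W(X) = h(X)` for smooth projective `X`), and put `G^{n,i}(X) = H^i(G^n(W(X)))`. For smooth projective `Y`
the groups for `i ≠ 0` are zero and `G^{n,0}(Y) = G^n(Y)`.

**Theorem.** (1) All homologically trivial cycle classes on all smooth projective varieties over `ℂ` are
smash-nilpotent if and only if `G^{n,i}(Z) = 0` for all `n`, `i` and the smooth affine cubic hypersurfaces
`Z : T(x, y, z) = 1` of all trilinear forms `T` over `ℂ`.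

(2) For all `n`, the conjecture is true for all smooth projective varieties of dimension at most `n` if
and only if the groups `G^{m,i}(Z)` are zero for the hypersurfaces `T(x, y, z) = 1` such that one of the
three blocks of variables has at most `n + 2` variables (the other two blocks are arbitrary).

(3) Unconditionally, the groups `G^{m,i}(Z)` are zero if one of the blocks has at most four variables.
-/

set_option autoImplicit false

open CategoryTheory CategoryTheory.Limits AlgebraicGeometry Pool.Agent.Y116.UV Pool.Agent.Z125.UN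
  Pool.Agent.Q193.LT

universe w w'

namespace Pool.Agent.Results.MP_bf8edd_ag.CubicHypersurfaces

/-- The Chow groups with rational coefficients, the cycle class maps and the exterior powers of cycle
classes. -/
structure ChowData where
  /-- the Chow groups `A^r(X)` with rational coefficients -/
  A : ℕ → Sch ℂ → ModuleCat.{w'} ℚ
  /-- the cohomology groups `H^{2r}(X, ℚ)` -/
  H : ℕ → Sch ℂ → ModuleCat.{w'} ℚ
  /-- the cycle class maps -/
  cl : ∀ (r : ℕ) (X : Sch ℂ), A r X ⟶ H r X
  /-- the groups `A^{mr}(X^m)` -/
  P : ℕ → ℕ → Sch ℂ → ModuleCat.{w'} ℚ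
  /-- the exterior powers `a^{× m} ∈ A^{mr}(X^m)` -/
  power : ∀ (m : ℕ) {r : ℕ} {X : Sch ℂ}, A r X → P m r X

/-- All homologically trivial cycle classes on `X` are smash-nilpotent. -/
def VoevodskyFor (D : ChowData.{w'}) (X : Sch ℂ) : Prop :=
  ∀ (r : ℕ) (a : D.A r X), (D.cl r X).hom a = 0 → ∃ m : ℕ, 1 ≤ m ∧ D.power m a = 0

/-- The groups `G^{n,i}(X)` are all zero. -/
def Vanish (G : ℤ × ℤ → Sch ℂ → ModuleCat.{w} ℚ) (X : Sch ℂ) : Prop :=
  ∀ n i : ℤ, Subsingleton (G (n, i) X)

/-- The groups `G^{n,i}(X)` with the maps to zero. -/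
noncomputable def toZero (G : ℤ × ℤ → Sch ℂ → ModuleCat.{w} ℚ) : PairData.{w} ℂ (ℤ × ℤ) ℚ where
  A := G
  B := fun _ _ => ModuleCat.of ℚ PUnit
  ρ := fun _ _ => 0

lemma bij_toZero (G : ℤ × ℤ → Sch ℂ → ModuleCat.{w} ℚ) (X : Sch ℂ) :
    BijAll (toZero G) X ↔ Vanish G X := by
  constructor
  · intro h n i
    exact ⟨fun a b => (h (n, i)).1 rfl⟩
  · rintro h ⟨n, i⟩
    have := h n i
    exact ⟨fun a b _ => Subsingleton.elim (α := G (n, i) X) a b, fun b => ⟨0, rfl⟩⟩

/-- What is used: `G^{n,0}(Y) = A^n_hom(Y) / A^n_⊗(Y)` and `G^{n,i}(Y) = 0` for `i ≠ 0` and smooth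
projective `Y`, and the known standard properties of weight complexes. -/
structure Describes (D : ChowData.{w'}) (G : ℤ × ℤ → Sch ℂ → ModuleCat.{w} ℚ) : Prop where
  classes : ∀ Y : Sch ℂ, SmoothProj Y → (VoevodskyFor D Y ↔ Vanish G Y)
  weight : IsWeightPair (toZero G)
  generated : WeightGen (toZero G)
  point : Vanish G (aff ℂ ℂ)

/-- The groups vanish for all hypersurfaces `T = 1` with a block of at most `m` variables. -/
def Forms (G : ℤ × ℤ → Sch ℂ → ModuleCat.{w} ℚ) (m : ℕ) : Prop :=
  ∀ (a b c : ℕ) (T : Fin a → Fin b → Fin c → ℂ), (a ≤ m ∨ b ≤ m ∨ c ≤ m) → Vanish G (hypS T)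

/-- The conjecture is true for all smooth projective schemes of dimension at most `n`. -/
def UpTo (D : ChowData.{w'}) (n : ℕ) : Prop :=
  ∀ Y : Sch ℂ, SmoothProj Y → topologicalKrullDim Y.left ≤ n → VoevodskyFor D Y

/-- **Homologically trivial cycles modulo smash-nilpotent ones, and cubic hypersurfaces.** See the
explanations above. Known cases that are used: in dimension at most two homologically trivial cycle
classes are algebraically equivalent to zero (with rational coefficients), so they are smash-nilpotent
(Voevodsky, Voisin). -/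
theorem result {D : ChowData.{w'}} {G : ℤ × ℤ → Sch ℂ → ModuleCat.{w} ℚ} (h : Describes D G)
    (surfaces : UpTo D 2) :
    ((∀ Y : Sch ℂ, SmoothProj Y → VoevodskyFor D Y) ↔
      ∀ (a b c : ℕ) (T : Fin a → Fin b → Fin c → ℂ), Vanish G (hypS T)) ∧
    (∀ n : ℕ, UpTo D n ↔ Forms G (n + 2)) ∧ Forms G 4 := by
  have hp : BijAll (toZero G) (aff ℂ ℂ) := (bij_toZero G _).mpr h.point
  have e : ∀ n : ℕ, UpTo D n ↔ Forms G (n + 2) := by
    intro n
    have h1 := wg_dim h.generated h.weight hp n
    constructor
    · intro g a b c T hm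
      exact (bij_toZero G _).mp (h1.mp (fun Y hY hn => (bij_toZero G _).mpr
        ((h.classes Y hY).mp (g Y hY hn))) a b c T hm)
    · intro g Y hY hn
      exact (h.classes Y hY).mpr ((bij_toZero G _).mp (h1.mpr (fun a b c T hm =>
        (bij_toZero G _).mpr (g a b c T hm)) Y hY hn))
  refine ⟨?_, e, (e 2).mp surfaces⟩
  have h2 := wg_all h.generated h.weight hp
  constructor
  · intro g a b c T
    exact (bij_toZero G _).mp (h2.mp (fun Y hY => (bij_toZero G _).mpr
      ((h.classes Y hY).mp (g Y hY))) a b c T)
  · intro g Y hY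
    exact (h.classes Y hY).mpr ((bij_toZero G _).mp (h2.mpr (fun a b c T =>
      (bij_toZero G _).mpr (g a b c T)) Y hY))

end Pool.Agent.Results.MP_bf8edd_ag.CubicHypersurfaces
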