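import Pool.Agent.Q69.Prime.Hom

/-!
# Homologically trivial cycles and the minimal prime adequate equivalence relations

`𝒱` is a class of smooth projective geometrically irreducible varieties over the field `k` closed
under products (for the problem: all smooth projective varieties over `k = ℂ`), `C` the Chow groups
with rational coefficients (in the form of their formal properties, `IsChowProj`) and `H` a Weil
cohomology theory (`IsWeilProj`), for the problem singular cohomology.

An adequate equivalence relation `P` (`IsAdequate`: graded subspaces of the `A(X)`, stable under
pull-backs, push-forwards and products) is called prime (`IsPrime`) if no fundamental class is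
equivalent to zero and an exterior product `x × y` of homogeneous classes is equivalent to zero only
if `x` or `y` is. It is a minimal prime (`IsMinimalPrime`) if no prime adequate equivalence relation is
strictly finer.

Theorem. Homological equivalence `homFam H` is a prime adequate equivalence relation, every prime
adequate equivalence relation contains a minimal one, and all homologically trivial classes (on all
varieties) are smash-nilpotent if and only if homological equivalence is the only minimal prime
adequate equivalence relation.
-/

open CategoryTheory AlgebraicGeometry

set_option autoImplicit false

universe u v w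

namespace Pool.Agent.Results.MP_bf8edd_ag.MinimalPrimes

open Pool.Agent.H914 Pool.Agent.W492.BB Pool.Agent.TH133 Pool.Agent.TH829.Prime
  Pool.Agent.Q69.Prime

/-- Homologically trivial classes are smash-nilpotent if and only if homological equivalence is the
only minimal prime adequate equivalence relation. -/
theorem result {k : Type u} [Field k] {𝒱 : VarClass k} (C : TheoryData.{u, v, 0} 𝒱 ℚ)
    [IsChowProj C] {K : Type w} [Field K] (H : WeilTheoryData.{u, v, w} C K) [IsWeilProj H] :
    IsPrime C (homFam H) ∧
    (∀ P : Family C, IsPrime C P → ∃ Q, IsMinimalPrime C Q ∧ Q ≤ P) ∧
    ((∀ (X : 𝒱.Obj) (i : ℤ) (a : C.A X), C.Deg i a → H.cl a = 0 → SmashNilpotent C a) ↔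
      ∀ P : Family C, IsMinimalPrime C P ↔ P = homFam H) :=
  ⟨isPrime_homFam, fun _ hP => exists_minimalPrime hP, hom_smash_iff H⟩

end Pool.Agent.Results.MP_bf8edd_ag.MinimalPrimes
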