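import Pool.Agent.Q72.DP.HomSmash

/-!
# Homologically trivial cycles and smash-nilpotence: powers of one divisor suffice

`𝒱` is a class of smooth projective geometrically irreducible varieties over the field `k` closed
under products (for the problem: all smooth projective varieties over `k = ℂ`), `C` the Chow groups
with rational coefficients (in the form of their formal properties, `IsChowProj`), `H` a Weil
cohomology theory (`IsWeilProj`; for the problem: Betti cohomology) and `B` the Grothendieck rings of
vector bundles with their known properties (`IsKTheory`).

For a divisor `G` on `V` write `G_1 + ⋯ + G_N` for the sum of its pull-backs to `V^N` under the `N`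
projections.

Theorem. For every variety `X` the following are equivalent:
* homologically trivial cycles on `X` are smash-nilpotent;
* the vector bundles on `X` with homologically trivial Chern classes have smash-nilpotent Chern
  classes;
* for every vector bundle of rank `m` on `X`, with `ξ` the class of `O(1)` on its projective bundle,
  if `ξ^m = 0` in cohomology then `(ξ_1 + ⋯ + ξ_N)^(N m) = 0` in the Chow ring for some `N`;
* the same for all powers of all divisors on projective bundles over `X`.
All homologically trivial cycles on all varieties are smash-nilpotent if and only if for every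
divisor `G` on a variety `V` of dimension `2m` with `G^m = 0` in `H^(2m)(V)`,
`(G_1 + ⋯ + G_N)^(N m) = 0` in the Chow ring of `V^N` for some `N ≥ 1`.
-/

open CategoryTheory AlgebraicGeometry

set_option autoImplicit false

universe u v w

namespace Pool.Agent.Results.MP_bf8edd_ag.PowersOfDivisors

open Pool.Agent.H914 Pool.Agent.W492.BB Pool.Agent.TH133 Pool.Agent.Q72.DP

/-- Homologically trivial cycles are smash-nilpotent, on one variety or on all, if and only if
`(G_1 + ⋯ + G_N)^(N m) = 0` for some `N`, for the single divisors `G` with `G^m` homologically
trivial. -/
theorem result {k : Type u} [Field k] {𝒱 : VarClass k} (C : TheoryData.{u, v, 0} 𝒱 ℚ)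
    [IsChowProj C] {K : Type w} [Field K] (H : WeilTheoryData.{u, v, w} C K) [IsWeilProj H]
    (B : BundleData C) (hB : B.IsKTheory) :
    (∀ X : 𝒱.Obj, [HomSmashFor H X, ChernHomSmash H B X, TautHomSmash H B X,
      ∀ (P : 𝒱.Obj) (f : P ⟶ X), B.IsBundle f → PowersHomSmash H P].TFAE) ∧
    [∀ X : 𝒱.Obj, HomSmashFor H X, ∀ V : 𝒱.Obj, PowersHomSmash H V, MiddleHomSmash H].TFAE :=
  ⟨homSmash_at hB, homSmash_all hB⟩

end Pool.Agent.Results.MP_bf8edd_ag.PowersOfDivisors
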